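import Pool.Agent.Helper96.GPL.St

set_option autoImplicit false

namespace Pool.Agent.Helper44.GPL

open Pool.Agent.Helper96.GPL Pool.Agent.Helper18.GP Relation Classical

private theorem sum_toFinset_le {X : Type} (E : List (X × X)) (f : X × X → ℝ)
    (hf : ∀ e ∈ E, 0 ≤ f e) : ∑ e ∈ E.toFinset, f e ≤ (E.map f).sum := by
  rw [Finset.sum_list_map_count]
  apply Finset.sum_le_sum
  intro e he
  rw [List.mem_toFinset] at he
  rw [nsmul_eq_mul]
  refine le_mul_of_one_le_left (hf e he) ?_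
  have h1 : 1 ≤ @List.count (X × X) instBEqOfDecidableEq e E :=
    (@List.one_le_count_iff (X × X) instBEqOfDecidableEq _ e E).2 he
  exact_mod_cast h1

private theorem eqv_reach {X : Type} (E : List (X × X)) {a b : X}
    (h : EqvGen (fun x y => (x, y) ∈ E) a b) :
    ReflTransGen (fun x y => (x, y) ∈ E ∨ (y, x) ∈ E) a b := by
  induction h with
  | rel x y h => exact ReflTransGen.single (Or.inl h)
  | refl x => exact ReflTransGen.refl
  | symm x y _ ih =>
    clear * - ih
    induction ih with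
    | refl => exact ReflTransGen.refl
    | tail _ h ih => exact ReflTransGen.head h.symm ih
  | trans x y z _ _ ih1 ih2 => exact ih1.trans ih2

theorem pListTree : lListTree := by
  intro X S d A E hd hA hAS hE hN
  obtain ⟨a₀, ha₀⟩ := hA
  set R : X → X → Prop := fun x y => (x, y) ∈ E ∨ (y, x) ∈ E with hR
  set W : Finset X := (A ∪ (E.toFinset.image Prod.fst ∪ E.toFinset.image Prod.snd)).filter
    (fun y => ReflTransGen R a₀ y) with hW
  have hWmem : ∀ y, y ∈ W → (y ∈ A ∨ ∃ e ∈ E, y = e.1 ∨ y = e.2) ∧ ReflTransGen R a₀ y := by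
    intro y hy
    rw [hW, Finset.mem_filter] at hy
    refine ⟨?_, hy.2⟩
    have h1 := hy.1
    rw [Finset.mem_union, Finset.mem_union, Finset.mem_image, Finset.mem_image] at h1
    rcases h1 with h | ⟨e, he, rfl⟩ | ⟨e, he, rfl⟩
    · exact Or.inl h
    · exact Or.inr ⟨e, List.mem_toFinset.1 he, Or.inl rfl⟩
    · exact Or.inr ⟨e, List.mem_toFinset.1 he, Or.inr rfl⟩
  have hWA : ∀ a ∈ A, a ∈ W := by
    intro a ha
    rw [hW, Finset.mem_filter]
    refine ⟨Finset.mem_union_left _ ha, eqv_reach E (hN a₀ ha₀ a ha)⟩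
  have hWS : ∀ y ∈ W, y ∈ S := by
    intro y hy
    rcases (hWmem y hy).1 with h | ⟨e, he, h | h⟩
    · exact hAS y h
    · rw [h]; exact (hE e he).1
    · rw [h]; exact (hE e he).2
  have hWR : ∀ y z, ReflTransGen R a₀ y → R y z → z ∈ W := by
    intro y z hy hyz
    rw [hW, Finset.mem_filter]
    refine ⟨?_, hy.tail hyz⟩
    rw [Finset.mem_union, Finset.mem_union, Finset.mem_image, Finset.mem_image]
    rcases hyz with h | h
    · exact Or.inr (Or.inr ⟨(y, z), List.mem_toFinset.2 h, rfl⟩)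
    · exact Or.inr (Or.inl ⟨(z, y), List.mem_toFinset.2 h, rfl⟩)
  set e : W ≃ Fin W.card := W.equivFin with he
  set x : Fin W.card → X := fun i => (e.symm i : X) with hx
  have hxW : ∀ i, x i ∈ W := fun i => (e.symm i).2
  have hxi : Function.Injective x := by
    intro i j hij
    exact e.symm.injective (Subtype.ext hij)
  have hxs : ∀ y ∈ W, ∃ i, x i = y := by
    intro y hy
    exact ⟨e ⟨y, hy⟩, by simp [hx]⟩
  -- the graph
  set G' : SimpleGraph (Fin W.card) := SimpleGraph.fromRel (fun i j => R (x i) (x j)) with hG'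
  have hG'adj : ∀ i j, G'.Adj i j → R (x i) (x j) := by
    intro i j h
    rw [hG', SimpleGraph.fromRel_adj] at h
    rcases h.2 with h | h
    · exact h
    · exact h.symm
  obtain ⟨i₀, hi₀⟩ := hxs a₀ (hWA a₀ ha₀)
  have key : ∀ y, ReflTransGen R a₀ y → ∃ i, x i = y ∧ G'.Reachable i₀ i := by
    intro y hy
    induction hy with
    | refl => exact ⟨i₀, hi₀, SimpleGraph.Reachable.refl _⟩
    | @tail u v hu huv ih =>
      obtain ⟨i, hi, hr⟩ := ih
      obtain ⟨j, hj⟩ := hxs v (hWR u v hu huv)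
      refine ⟨j, hj, ?_⟩
      by_cases hij : i = j
      · rw [← hij]; exact hr
      · refine hr.trans (SimpleGraph.Adj.reachable ?_)
        rw [hG', SimpleGraph.fromRel_adj]
        refine ⟨hij, Or.inl ?_⟩
        rw [hi, hj]; exact huv
  have hreach : ∀ i, G'.Reachable i₀ i := by
    intro i
    obtain ⟨j, hj, hr⟩ := key (x i) (hWmem _ (hxW i)).2
    rw [hxi hj] at hr
    exact hr
  have hconn : G'.Connected := by
    have : Nonempty (Fin W.card) := ⟨i₀⟩
    refine ⟨fun i j => (hreach i).symm.trans (hreach j)⟩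
  obtain ⟨H, hHG, hH⟩ := hconn.exists_isTree_le
  refine ⟨W.card, H, x, ⟨hH, fun i => hWS _ (hxW i), hxi, fun a ha => hxs a (hWA a ha)⟩,
    fun i => (hWmem _ (hxW i)).1, ?_⟩
  -- length
  have hnn : ∀ e ∈ E, 0 ≤ (fun e : X × X => d e.1 e.2) e := by
    intro e he
    exact hd.nonneg _ (hE e he).1 _ (hE e he).2
  have hle := sum_toFinset_le E (fun e => d e.1 e.2) hnn
  have hxx : ∀ p : Fin W.card × Fin W.card, 0 ≤ d (x p.1) (x p.2) := fun p =>
    hd.nonneg _ (hWS _ (hxW _)) _ (hWS _ (hxW _))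
  unfold tlen
  set F0 := ((Finset.univ ×ˢ Finset.univ : Finset (Fin W.card × Fin W.card)).filter
    (fun p => H.Adj p.1 p.2)) with hF0
  set F1 := ((Finset.univ : Finset (Fin W.card × Fin W.card)).filter
    (fun p => (x p.1, x p.2) ∈ E)) with hF1
  set F2 := ((Finset.univ : Finset (Fin W.card × Fin W.card)).filter
    (fun p => (x p.2, x p.1) ∈ E)) with hF2
  have hsub : F0 ⊆ F1 ∪ F2 := by
    intro p hp
    rw [hF0, Finset.mem_filter] at hp
    have := hG'adj _ _ (hHG hp.2)
    rw [Finset.mem_union, hF1, hF2, Finset.mem_filter, Finset.mem_filter]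
    rcases this with h | h
    · exact Or.inl ⟨Finset.mem_univ _, h⟩
    · exact Or.inr ⟨Finset.mem_univ _, h⟩
  have h0 : ∑ p ∈ F0, d (x p.1) (x p.2) ≤ ∑ p ∈ F1 ∪ F2, d (x p.1) (x p.2) :=
    Finset.sum_le_sum_of_subset_of_nonneg hsub (fun p _ _ => hxx p)
  have h00 : ∑ p ∈ F1 ∪ F2, d (x p.1) (x p.2) ≤
      ∑ p ∈ F1, d (x p.1) (x p.2) + ∑ p ∈ F2, d (x p.1) (x p.2) := by
    rw [← Finset.sum_union_inter]
    have : 0 ≤ ∑ p ∈ F1 ∩ F2, d (x p.1) (x p.2) := Finset.sum_nonneg (fun p _ => hxx p)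
    linarith
  have h1 : ∑ p ∈ F1, d (x p.1) (x p.2) ≤ ∑ e ∈ E.toFinset, d e.1 e.2 := by
    have hinj : Set.InjOn (fun p : Fin W.card × Fin W.card => (x p.1, x p.2)) F1 := by
      intro p _ q _ hpq
      simp only [Prod.mk.injEq] at hpq
      exact Prod.ext (hxi hpq.1) (hxi hpq.2)
    have : ∑ p ∈ F1, d (x p.1) (x p.2) =
        ∑ e ∈ F1.image (fun p : Fin W.card × Fin W.card => (x p.1, x p.2)), d e.1 e.2 := by
      rw [Finset.sum_image hinj]
    rw [this]
    apply Finset.sum_le_sum_of_subset_of_nonneg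
    · intro e he
      rw [Finset.mem_image] at he
      obtain ⟨p, hp, rfl⟩ := he
      rw [hF1, Finset.mem_filter] at hp
      exact List.mem_toFinset.2 hp.2
    · intro e he _
      exact hnn e (List.mem_toFinset.1 he)
  have h2 : ∑ p ∈ F2, d (x p.1) (x p.2) ≤ ∑ e ∈ E.toFinset, d e.1 e.2 := by
    have hinj : Set.InjOn (fun p : Fin W.card × Fin W.card => (x p.2, x p.1)) F2 := by
      intro p _ q _ hpq
      simp only [Prod.mk.injEq] at hpq
      exact Prod.ext (hxi hpq.2) (hxi hpq.1)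
    have : ∑ p ∈ F2, d (x p.1) (x p.2) =
        ∑ e ∈ F2.image (fun p : Fin W.card × Fin W.card => (x p.2, x p.1)), d e.1 e.2 := by
      rw [Finset.sum_image hinj]
      exact Finset.sum_congr rfl (fun p _ =>
        hd.symm _ (hWS _ (hxW _)) _ (hWS _ (hxW _)))
    rw [this]
    apply Finset.sum_le_sum_of_subset_of_nonneg
    · intro e he
      rw [Finset.mem_image] at he
      obtain ⟨p, hp, rfl⟩ := he
      rw [hF2, Finset.mem_filter] at hp
      exact List.mem_toFinset.2 hp.2
    · intro e he _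
      exact hnn e (List.mem_toFinset.1 he)
  unfold nlen
  linarith

end Pool.Agent.Helper44.GPL
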