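import Pool.Agent.Helper96.GPL.St

set_option autoImplicit false

namespace Pool.Agent.Helper44.GPL

open Pool.Agent.Helper96.GPL Pool.Agent.Helper18.GP Relation Classical

theorem pTreeList : lTreeList := by
  intro X S A d k H x hd hxS hH hA
  set F : Finset (Fin k × Fin k) := (Finset.univ ×ˢ Finset.univ : Finset (Fin k × Fin k)).filter
    (fun p => p.1 < p.2 ∧ H.Adj p.1 p.2) with hF
  set E : List (X × X) := F.toList.map (fun p => (x p.1, x p.2)) with hE
  have hmem : ∀ e, e ∈ E ↔ ∃ p ∈ F, (x p.1, x p.2) = e := by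
    intro e
    rw [hE, List.mem_map]
    simp only [Finset.mem_toList]
  refine ⟨E, ?_, ?_, ?_, ?_⟩
  · intro e he
    obtain ⟨p, hp, rfl⟩ := (hmem e).1 he
    exact ⟨hxS _, hxS _⟩
  · intro a ha b hb
    obtain ⟨i, rfl⟩ := hA a ha
    obtain ⟨j, rfl⟩ := hA b hb
    have hr : H.Reachable i j := hH.preconnected i j
    rw [SimpleGraph.reachable_iff_reflTransGen] at hr
    clear hb
    induction hr with
    | refl => exact EqvGen.refl _
    | @tail u v _ huv ih =>
      refine EqvGen.trans _ _ _ ih ?_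
      rcases lt_trichotomy u v with h | h | h
      · exact EqvGen.rel _ _ ((hmem _).2 ⟨(u, v), by simp [hF, h, huv], rfl⟩)
      · exact absurd h huv.ne
      · exact EqvGen.symm _ _ (EqvGen.rel _ _ ((hmem _).2 ⟨(v, u), by simp [hF, h, huv.symm], rfl⟩))
  · unfold nlen tlen
    have h1 : (E.map fun e => d e.1 e.2).sum = ∑ p ∈ F, d (x p.1) (x p.2) := by
      rw [hE, List.map_map, ← Finset.sum_map_toList]
      rfl
    rw [h1]
    set F' : Finset (Fin k × Fin k) := (Finset.univ ×ˢ Finset.univ : Finset (Fin k × Fin k)).filter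
      (fun p => p.2 < p.1 ∧ H.Adj p.1 p.2) with hF'
    have h2 : ∑ p ∈ F', d (x p.1) (x p.2) = ∑ p ∈ F, d (x p.1) (x p.2) := by
      refine Finset.sum_nbij' (fun p => (p.2, p.1)) (fun p => (p.2, p.1)) ?_ ?_ ?_ ?_ ?_
      · intro p hp
        simp only [hF', hF, Finset.mem_filter] at hp ⊢
        exact ⟨by simp, hp.2.1, hp.2.2.symm⟩
      · intro p hp
        simp only [hF', hF, Finset.mem_filter] at hp ⊢
        exact ⟨by simp, hp.2.1, hp.2.2.symm⟩
      · intro p _; rfl
      · intro p _; rfl
      · intro p _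
        exact hd.symm _ (hxS _) _ (hxS _)
    have h3 : (Finset.univ ×ˢ Finset.univ : Finset (Fin k × Fin k)).filter
        (fun p => H.Adj p.1 p.2) = F ∪ F' := by
      ext p
      simp only [hF, hF', Finset.mem_filter, Finset.mem_union]
      constructor
      · rintro ⟨h, h'⟩
        rcases lt_trichotomy p.1 p.2 with hh | hh | hh
        · exact Or.inl ⟨h, hh, h'⟩
        · exact absurd hh h'.ne
        · exact Or.inr ⟨h, hh, h'⟩
      · rintro (⟨h, _, h'⟩ | ⟨h, _, h'⟩)
        · exact ⟨h, h'⟩
        · exact ⟨h, h'⟩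
    have h4 : Disjoint F F' := by
      rw [Finset.disjoint_left]
      intro p hp hp'
      simp only [hF, hF', Finset.mem_filter] at hp hp'
      exact absurd hp.2.1 (not_lt.2 hp'.2.1.le)
    rw [h3, Finset.sum_union h4, h2]
    ring
  · rw [hE, List.length_map, Finset.length_toList]
    calc F.card ≤ (Finset.univ ×ˢ Finset.univ : Finset (Fin k × Fin k)).card :=
          Finset.card_filter_le _ _
      _ = k * k := by simp

end Pool.Agent.Helper44.GPL
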